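/-
SB block GA, Pair: the fixed field of a section is a good pair (uses `gpair_crit`, GPC.lean).

`W = kbar k Ω`, `F : IntermediateField k W`, `D = F.fixingSubgroup`, `S : D →* Gal(Ω/K)` a section (`FSec`),
`L = fixF k K S`.  `F → L` is the inclusion (`inclF`): for `a ∈ F`, `S γ a = γ a = a`.
`gpair_fix`: apply `Pool.Agent.Helper98.SA.gpair_crit` with `G = D` and `ρ γ = S γ` as an automorphism over `L`
(`AlgEquiv.ofRingEquiv` or `{ S γ with commutes' := fun x => x.2 γ }`).
`Ω / L` is algebraic (`K ≤ L`).
`hfix`: definition of `fixF`.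
`hF`: `z : Ω` algebraic over `F`, so over `k` (`F / k` is algebraic: `F ≤ W`), so `z ∈ W` (`mem_algebraicClosure_iff`).
  `S γ z = γ z = z` for all `γ ∈ D`, so `z ∈ fixedField (F.fixingSubgroup) = F`: `W / k` is Galois (normal: `W` is
  algebraically closed, `algebraicClosure.isAlgClosure`; characteristic 0), for infinite Galois extensions
  `InfiniteGalois.fixedField_fixingSubgroup`.
`hc`: `y : Ω`.  `{γ : D | S γ y = y}` is open in `D` and contains `1`, so (Krull topology on `W ≃ₐ[k] W`, subspace topology on `D`)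
  it contains `D ∩ fixingSubgroup E'` for a finite dimensional `E' : IntermediateField k W`
  (`krullTopology_mem_nhds_one_iff`); `S :=` the images in `Ω` of a finite set of generators of `E'` over `k`
  (`IntermediateField.fg_of_finiteDimensional`); if `S γ` fixes them, then `γ` fixes `E'`.
-/
import Pool.Agent.Helper79.SG.Defs
import Pool.Agent.Helper98.SA.GPC

set_option autoImplicit false

open MvPolynomial IntermediateField NumberField IsDedekindDomain

namespace Pool.Agent.Helper98.SGA

open Pool.Agent.SB Pool.Agent.Helper98.SA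

variable {k : Type} [Field k] [CharZero k] {Ω : Type} [Field Ω] [Algebra k Ω] [IsAlgClosed Ω]

/-- the inclusion of `F` into the fixed field of a section over `Gal(kbar/F)` -/
noncomputable def inclF (K : IntermediateField k Ω) (F : IntermediateField k (kbar k Ω))
    (S : F.fixingSubgroup →* (Ω ≃ₐ[K] Ω)) (hS : FSec k K F.fixingSubgroup S) :
    F →+* fixF k K S where
  toFun a := ⟨((a : kbar k Ω) : Ω), fun γ => by
    rw [hS.ind γ (a : kbar k Ω)]
    exact congrArg _ ((IntermediateField.mem_fixingSubgroup_iff F _).mp γ.2 a a.2)⟩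
  map_one' := rfl
  map_mul' _ _ := rfl
  map_zero' := rfl
  map_add' _ _ := rfl

/-- the section as an action over its fixed field -/
private noncomputable def pairRho (K : IntermediateField k Ω)
    {D : Subgroup (kbar k Ω ≃ₐ[k] kbar k Ω)} (S : D →* (Ω ≃ₐ[K] Ω)) :
    D →* (Ω ≃ₐ[fixF k K S] Ω) where
  toFun γ := AlgEquiv.ofRingEquiv (f := (S γ : Ω ≃+* Ω)) (fun x => x.2 γ)
  map_one' := by
    ext x
    show S 1 x = x
    rw [map_one]
    rfl
  map_mul' a b := by
    ext x
    show S (a * b) x = S a (S b x)
    rw [map_mul]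
    rfl

private theorem pair_fixes {W : Type} [Field W] [Algebra k W] (g : W ≃ₐ[k] W) (t : Set W)
    (h : ∀ z ∈ t, g z = z) {x : W} (hx : x ∈ IntermediateField.adjoin k t) : g x = x := by
  induction hx using IntermediateField.adjoin_induction with
  | mem y hy => exact h y hy
  | algebraMap y => exact g.commutes y
  | add a b ha hb iha ihb => rw [map_add, iha, ihb]
  | inv a ha iha => rw [map_inv₀, iha]
  | mul a b ha hb iha ihb => rw [map_mul, iha, ihb]

private theorem pair_fg {K M : Type} [Field K] [Field M] [Algebra K M] (N : IntermediateField K M)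
    [FiniteDimensional K N] : ∃ t : Finset M, IntermediateField.adjoin K (t : Set M) = N :=
  IntermediateField.essFiniteType_iff.1 inferInstance

theorem gpair_fix (K : IntermediateField k Ω) [Algebra.IsAlgebraic K Ω]
    (F : IntermediateField k (kbar k Ω)) (S : F.fixingSubgroup →* (Ω ≃ₐ[K] Ω))
    (hS : FSec k K F.fixingSubgroup S) :
    letI : Algebra F (fixF k K S) := (inclF K F S hS).toAlgebra
    haveI : IsScalarTower F (fixF k K S) Ω := IsScalarTower.of_algebraMap_eq (fun _ => rfl)
    GPair F (fixF k K S) Ω := by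
  classical
  letI : Algebra F (fixF k K S) := (inclF K F S hS).toAlgebra
  haveI : IsScalarTower F (fixF k K S) Ω := IsScalarTower.of_algebraMap_eq (fun _ => rfl)
  have hcl : IsAlgClosure k (kbar k Ω) := algebraicClosure.isAlgClosure k Ω
  have hgal : IsGalois k (kbar k Ω) := inferInstance
  have hWalg : Algebra.IsAlgebraic k (kbar k Ω) := hcl.isAlgebraic
  have hFalg : Algebra.IsAlgebraic k F := inferInstance
  have hcF : CharZero F := charZero_of_injective_algebraMap (algebraMap k F).injective
  have hLalg : Algebra.IsAlgebraic (fixF k K S) Ω :=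
    Algebra.IsAlgebraic.tower_top (K := K) (fixF k K S)
  have hWF : ∀ z : kbar k Ω, IsAlgebraic F (z : Ω) := by
    intro z
    have h1 : IsAlgebraic k (z : Ω) := mem_algebraicClosure_iff.1 z.2
    exact h1.tower_top F
  refine gpair_crit (pairRho K S) ?_ ?_ ?_
  · intro x hx
    exact ⟨⟨x, hx⟩, rfl⟩
  · intro z hz hfix
    have hz1 : IsAlgebraic k z := IsAlgebraic.restrictScalars k hz
    have hz2 : z ∈ kbar k Ω := mem_algebraicClosure_iff.2 hz1
    have hz3 : (⟨z, hz2⟩ : kbar k Ω) ∈ F := by
      rw [← InfiniteGalois.fixedField_fixingSubgroup F, IntermediateField.mem_fixedField_iff]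
      intro γ hγ
      apply Subtype.ext
      have h1 := hS.ind ⟨γ, hγ⟩ ⟨z, hz2⟩
      have h2 : S ⟨γ, hγ⟩ z = z := hfix ⟨γ, hγ⟩
      rw [h2] at h1
      exact h1.symm
    exact ⟨⟨⟨z, hz2⟩, hz3⟩, rfl⟩
  · intro y
    have hU : {γ : F.fixingSubgroup | S γ y = y} ∈ nhds (1 : F.fixingSubgroup) :=
      (hS.cont y).mem_nhds (by
        show S 1 y = y
        rw [map_one]
        rfl)
    rw [mem_nhds_subtype] at hU
    obtain ⟨V, hV, hVU⟩ := hU
    obtain ⟨E', hE', hEV⟩ := (krullTopology_mem_nhds_one_iff k (kbar k Ω) V).1 hV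
    obtain ⟨t, ht⟩ := pair_fg E'
    refine ⟨t.image (fun z : kbar k Ω => (z : Ω)), ?_, ?_⟩
    · intro z hz
      obtain ⟨w, _, rfl⟩ := Finset.mem_image.1 hz
      exact hWF w
    · intro g hg
      apply hVU
      apply hEV
      show (g : kbar k Ω ≃ₐ[k] kbar k Ω) ∈ E'.fixingSubgroup
      rw [IntermediateField.mem_fixingSubgroup_iff]
      intro x hx
      rw [← ht] at hx
      refine pair_fixes _ (t : Set (kbar k Ω)) ?_ hx
      intro z hz
      apply Subtype.ext
      have h1 := hS.ind g z
      have h2 : S g (z : Ω) = z := hg (z : Ω) (Finset.mem_image_of_mem _ (Finset.mem_coe.1 hz))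
      rw [h2] at h1
      exact h1.symm

end Pool.Agent.Helper98.SGA
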