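/-
SB block GA, Place: the place theorem for the fixed field of a section, finite and real places.
-/
import Pool.Agent.Helper98.SGA.Pair
import Pool.Agent.Helper98.SA.Iface
import Pool.Agent.Helper60.SL.DecHDVR
import Pool.Agent.Helper60.SL.Arch

set_option autoImplicit false

open MvPolynomial IntermediateField NumberField IsDedekindDomain

namespace Pool.Agent.Helper98.SGA

open Pool.Agent.SB

theorem kbar_closed (k : Type) [Field k] (Ω : Type) [Field Ω] [Algebra k Ω] [IsAlgClosed Ω] :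
    IsAlgClosed (kbar k Ω) :=
  (algebraicClosure.isAlgClosure k Ω).isAlgClosed

/-- the embedding of `decField j` in `E` -/
theorem exists_loc_gen {k : Type} [Field k] {W : Type} [Field W] [Algebra k W] {E : Type}
    [Field E] [Algebra k E] (j : W →ₐ[k] AlgebraicClosure E) :
    ∃ f : decField j →+* E, ∀ x : decField j, algebraMap E (AlgebraicClosure E) (f x) = j x := by
  have hinj := (algebraMap E (AlgebraicClosure E)).injective
  choose f hf using fun x : decField j => (mem_decField j (x : W)).mp x.2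
  refine ⟨{ toFun := f, map_one' := ?_, map_mul' := ?_, map_zero' := ?_, map_add' := ?_ }, hf⟩
  · apply hinj; rw [hf]; simp
  · intro x y; apply hinj; rw [hf, map_mul, hf, hf]; simp
  · apply hinj; rw [hf]; simp
  · intro x y; apply hinj; rw [hf, map_add, hf, hf]; simp

end Pool.Agent.Helper98.SGA

namespace Pool.Agent.SB

open Pool.Agent.Helper98.SGA Pool.Agent.Helper98.SA Pool.Agent.Helper60.SL

variable {k : Type} [Field k] [NumberField k] {Ω : Type} [Field Ω] [Algebra k Ω] [IsAlgClosed Ω]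

theorem place_fin (K : IntermediateField k Ω) [Algebra.IsAlgebraic K Ω]
    (v : HeightOneSpectrum (𝓞 k)) (j : kbar k Ω →ₐ[k] AlgebraicClosure (v.adicCompletion k))
    (S : (decField j).fixingSubgroup →* (Ω ≃ₐ[K] Ω))
    (hS : FSec k K (decField j).fixingSubgroup S) :
    ∃ (O : ValuationSubring (fixF k K S)) (φ : O →+* v.adicCompletion k),
      ∀ (a : kbar k Ω) (_ : a ∈ decField j) (h : (a : Ω) ∈ fixF k K S),
        ∃ h' : (⟨(a : Ω), h⟩ : fixF k K S) ∈ O,
          algebraMap (v.adicCompletion k) (AlgebraicClosure (v.adicCompletion k))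
            (φ ⟨⟨(a : Ω), h⟩, h'⟩) = j a := by
  have hW : IsAlgClosed (kbar k Ω) := kbar_closed k Ω
  letI : Algebra (decField j) (fixF k K S) := (inclF K (decField j) S hS).toAlgebra
  haveI : IsScalarTower (decField j) (fixF k K S) Ω :=
    IsScalarTower.of_algebraMap_eq (fun _ => rfl)
  have hg := gpair_fix K (decField j) S hS
  obtain ⟨O, φ, hF, hφ⟩ := place_hom hg (hdvr_dec j) ((loc j : decField j →+* v.adicCompletion k))
    (fun x => by
      rw [← loc_mem, HeightOneSpectrum.mem_adicCompletionIntegers]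
      rfl)
  refine ⟨O, φ, fun a ha h => ⟨hF ⟨a, ha⟩, ?_⟩⟩
  have h1 := hφ ⟨a, ha⟩
  have h2 := loc_spec j ⟨a, ha⟩
  rw [← h2]
  exact congrArg _ h1

theorem place_inf (K : IntermediateField k Ω) [Algebra.IsAlgebraic K Ω]
    (w : InfinitePlace k) (hw : w.IsReal) (j : kbar k Ω →ₐ[k] AlgebraicClosure w.Completion)
    (S : (decField j).fixingSubgroup →* (Ω ≃ₐ[K] Ω))
    (hS : FSec k K (decField j).fixingSubgroup S) :
    ∃ (O : ValuationSubring (fixF k K S)) (φ : O →+* w.Completion),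
      ∀ (a : kbar k Ω) (_ : a ∈ decField j) (h : (a : Ω) ∈ fixF k K S),
        ∃ h' : (⟨(a : Ω), h⟩ : fixF k K S) ∈ O,
          algebraMap w.Completion (AlgebraicClosure w.Completion)
            (φ ⟨⟨(a : Ω), h⟩, h'⟩) = j a := by
  have hW : IsAlgClosed (kbar k Ω) := kbar_closed k Ω
  letI : Algebra (decField j) (fixF k K S) := (inclF K (decField j) S hS).toAlgebra
  haveI : IsScalarTower (decField j) (fixF k K S) Ω :=
    IsScalarTower.of_algebraMap_eq (fun _ => rfl)
  have hg := gpair_fix K (decField j) S hS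
  obtain ⟨f, hf⟩ := exists_loc_gen j
  let e : w.Completion ≃+* ℝ := InfinitePlace.Completion.ringEquivRealOfIsReal hw
  obtain ⟨i, hi⟩ := IsAlgClosed.exists_pow_nat_eq (-1 : kbar k Ω) (n := 2) (by norm_num)
  have hi' : ((i : kbar k Ω) : Ω) ^ 2 = -1 := by
    have := congrArg (fun z : kbar k Ω => (z : Ω)) hi
    simpa using this
  obtain ⟨O, φ, hF, hφ⟩ := place_real hg (e.toRingHom.comp f) hi' (fun z hz => by
    have hz' : IsAlgebraic k z := hz.restrictScalars k
    have hz'' : z ∈ kbar k Ω := (mem_algebraicClosure_iff).mpr hz'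
    obtain ⟨a, b, ha, hb, hab⟩ := arch_i w j hw hi ⟨z, hz''⟩
    exact ⟨⟨a, ha⟩, ⟨b, hb⟩, congrArg (fun z : kbar k Ω => (z : Ω)) hab⟩)
  refine ⟨O, (e.symm : ℝ →+* w.Completion).comp φ, fun a ha h => ⟨hF ⟨a, ha⟩, ?_⟩⟩
  have h1 := hφ ⟨a, ha⟩
  have h2 := hf ⟨a, ha⟩
  have h3 : (e.symm : ℝ →+* w.Completion).comp φ ⟨⟨(a : Ω), h⟩, hF ⟨a, ha⟩⟩ = f ⟨a, ha⟩ := by
    have h4 : φ ⟨⟨(a : Ω), h⟩, hF ⟨a, ha⟩⟩ = e (f ⟨a, ha⟩) := h1
    rw [RingHom.comp_apply, h4]
    exact e.symm_apply_apply _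
  rw [h3]
  exact h2

end Pool.Agent.SB
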