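/-
SB block GA, LimKey: the sections `s i` stabilise along the ultrafilter on every finite extension `M` of `K`.

PROOF.  `M' :=` the normal closure of `M` over `K` in `Ω` (`IntermediateField.normalClosure K M Ω`), finite dimensional and
normal over `K`, `M ≤ M'`.  `M'` is generated by finitely many elements, so by `hU` (finite intersection)
`∀ᶠ i in U, M' ≤ E i`.
For `i` with `h : M' ≤ E i` let `r i : D →* (M' ≃ₐ[K] M')` be the restriction of `s i` to `M'`: with
`Algebra M' (E i) := (IntermediateField.inclusion h).toAlgebra` (a scalar tower `K, M', E i`),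
`r i = (AlgEquiv.restrictNormalHom M').comp (s i)`; `(r i γ θ : Ω) = s i γ θ` (`AlgEquiv.restrictNormal_commutes`).
Its kernel is open: it is the finite intersection over a finite set of generators `θ` of `M'` over `K` of the open sets
`{γ | s i γ θ = θ}` (`(hs i).cont`).
`Q := (M' ≃ₐ[K] M')` is a finite group; by `hD Q` the set `{f : D →* Q | IsOpen (f.ker)}` is finite, so by
`Ultrafilter.finite_biUnion_mem_iff` there is one `f` with `∀ᶠ i in U, (M' ≤ E i and) r i = f`.
The function of the statement: `F γ θ := if h : θ ∈ M' then ((f γ ⟨θ, h⟩ : M') : Ω) else 0`.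
(`hE` is not needed: the restriction to the normal field `M'` always exists.)
-/
import Pool.Agent.Helper79.SG.Defs

set_option autoImplicit false

open MvPolynomial IntermediateField NumberField IsDedekindDomain

namespace Pool.Agent.Helper98.SGA

open Pool.Agent.SB

private theorem limKey_restr {k : Type} [Field k] {Ω : Type} [Field Ω] [Algebra k Ω]
    {K : IntermediateField k Ω} (D : Subgroup (kbar k Ω ≃ₐ[k] kbar k Ω))
    (M' : IntermediateField K Ω) [Normal K M'] (E : IntermediateField K Ω) (h : M' ≤ E)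
    (s : D →* (E ≃ₐ[K] E)) :
    ∃ r : D →* (M' ≃ₐ[K] M'), ∀ (γ : D) (θ : M'),
      ((r γ θ : M') : Ω) = ((s γ ⟨θ, h θ.2⟩ : E) : Ω) := by
  let _ : Algebra M' E := (IntermediateField.inclusion h).toAlgebra
  have : IsScalarTower K M' E := IsScalarTower.of_algebraMap_eq fun x => rfl
  refine ⟨(AlgEquiv.restrictNormalHom M').comp s, fun γ θ => ?_⟩
  have h1 := AlgEquiv.restrictNormal_commutes (s γ) M' θ
  exact congrArg Subtype.val h1

theorem limit_key {k : Type} [Field k] [NumberField k] {Ω : Type} [Field Ω] [Algebra k Ω]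
    [IsAlgClosed Ω] (K : IntermediateField k Ω) [Algebra.IsAlgebraic K Ω]
    (D : Subgroup (kbar k Ω ≃ₐ[k] kbar k Ω))
    (hD : ∀ (Q : Type) [Group Q] [Finite Q], {f : D →* Q | IsOpen (f.ker : Set D)}.Finite)
    {I : Type} (U : Ultrafilter I) (E : I → IntermediateField K Ω)
    (hU : ∀ θ : Ω, ∀ᶠ i in (U : Filter I), θ ∈ E i) (s : ∀ i, D →* (E i ≃ₐ[K] E i))
    (hs : ∀ i, KSec k K D (E i) (s i)) (M : IntermediateField K Ω) [FiniteDimensional K M] :
    ∃ F : D → Ω → Ω, ∀ᶠ i in (U : Filter I), ∀ (γ : D) (θ : E i), (θ : Ω) ∈ M →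
      ((s i γ θ : E i) : Ω) = F γ (θ : Ω) := by
  classical
  have hclo : IsAlgClosure K Ω := ⟨inferInstance, inferInstance⟩
  have hnorm : Normal K Ω := inferInstance
  obtain ⟨M', hM'⟩ : ∃ M' : IntermediateField K Ω,
      M' = IntermediateField.normalClosure K M Ω := ⟨_, rfl⟩
  have hfin : FiniteDimensional K M' := by
    rw [hM']
    infer_instance
  have hn : Normal K M' := by
    rw [hM']
    infer_instance
  have hle : M ≤ M' := by
    rw [hM']
    exact IntermediateField.le_normalClosure M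
  let b := Module.finBasis K M'
  have hev : ∀ᶠ i in (U : Filter I), M' ≤ E i := by
    have h1 : ∀ᶠ i in (U : Filter I), ∀ j, ((b j : M') : Ω) ∈ E i :=
      Filter.eventually_all.2 fun j => hU _
    refine h1.mono fun i hi θ hθ => ?_
    have h2 : (⟨θ, hθ⟩ : M') = ∑ j, b.repr ⟨θ, hθ⟩ j • b j := (b.sum_repr _).symm
    have h3 : θ = ∑ j, b.repr ⟨θ, hθ⟩ j • ((b j : M') : Ω) := by
      have h4 := congrArg (M'.val) h2
      rw [map_sum] at h4
      simp only [map_smul] at h4
      exact h4
    rw [h3]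
    exact (E i).sum_mem fun j _ => (E i).smul_mem (hi j)
  have hcov : (⋃ f ∈ {f : D →* (M' ≃ₐ[K] M') | IsOpen (f.ker : Set D)},
      {i : I | ∃ h : M' ≤ E i, ∀ (γ : D) (θ : M'),
        ((f γ θ : M') : Ω) = ((s i γ ⟨θ, h θ.2⟩ : E i) : Ω)}) ∈ U := by
    refine Filter.mem_of_superset hev fun i hi => ?_
    obtain ⟨r, hr⟩ := limKey_restr D M' (E i) hi (s i)
    rw [Set.mem_iUnion₂]
    refine ⟨r, ?_, hi, hr⟩
    have hker : (r.ker : Set D) = ⋂ j, {γ : D | s i γ ⟨b j, hi (b j).2⟩ = ⟨b j, hi (b j).2⟩} := by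
      ext γ
      rw [Set.mem_iInter]
      constructor
      · intro hγ j
        have h1 : r γ = 1 := hγ
        change s i γ ⟨b j, hi (b j).2⟩ = ⟨b j, hi (b j).2⟩
        apply Subtype.ext
        rw [← hr, h1]
        rfl
      · intro hγ
        change r γ = 1
        have h1 : ((r γ : M' ≃ₐ[K] M') : M' →ₐ[K] M').toLinearMap = LinearMap.id := by
          refine b.ext fun j => ?_
          apply Subtype.ext
          have h2 : s i γ ⟨b j, hi (b j).2⟩ = ⟨b j, hi (b j).2⟩ := hγ j
          have h3 := hr γ (b j)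
          rw [h2] at h3
          exact h3
        ext θ
        have h4 := LinearMap.congr_fun h1 θ
        exact congrArg Subtype.val h4
    change IsOpen (r.ker : Set D)
    rw [hker]
    exact isOpen_iInter_of_finite fun j => (hs i).cont _
  rw [Ultrafilter.finite_biUnion_mem_iff (hD (M' ≃ₐ[K] M'))] at hcov
  obtain ⟨f, -, hf⟩ := hcov
  refine ⟨fun γ θ => if h : θ ∈ M' then ((f γ ⟨θ, h⟩ : M') : Ω) else 0, ?_⟩
  refine Filter.mem_of_superset hf ?_
  rintro i ⟨h, hi⟩ γ θ hθ
  change ((s i γ θ : E i) : Ω) = if h : (θ : Ω) ∈ M' then ((f γ ⟨θ, h⟩ : M') : Ω) else 0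
  rw [dif_pos (hle hθ), hi]

end Pool.Agent.Helper98.SGA
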