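/-
SB block GA, Limit: the limit of sections along an ultrafilter (from `limit_key`).

PROOF.  For `γ : D`, `θ : Ω` there is exactly one `y : Ω` with `∀ᶠ i in U, ∃ h : θ ∈ E i, ((s i γ ⟨θ, h⟩ : E i) : Ω) = y`
(existence: `limit_key` with `M = K(θ)`, `y = F γ θ`; uniqueness: two such sets meet, `U` is nontrivial:
`Filter.Eventually.exists`).  Define `S γ θ` as this `y` (choice).  Ring homomorphism in `θ`, identity on `K`
(`s i γ` is a `K`-algebra map; intersect the eventual sets for `θ`, `θ'`, `θ + θ'`), multiplicative in `γ`: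
`S (γ δ) θ = S γ (S δ θ)` and `S 1 θ = θ`; so `S γ` is an automorphism with inverse `S γ⁻¹` and `S : D →* (Ω ≃ₐ[K] Ω)`.
Last claim: `M` finite: by `limit_key` for `M`: `∀ᶠ i, ∀ γ θ, θ ∈ M → s i γ θ = F γ θ`, and for `θ ∈ M`: `S γ θ = F γ θ` (both are
eventual values).
cont: fix `θ` and `i` with the last claim for `M = K(θ)` and `θ ∈ E i`: `{γ | S γ θ = θ} = {γ | s i γ θ = θ}` is open.
ind: `θ ∈ W`: eventually `θ ∈ E i` and `s i γ θ = γ θ`.
-/
import Pool.Agent.Helper98.SGA.LimKey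

set_option autoImplicit false

open MvPolynomial IntermediateField NumberField IsDedekindDomain

namespace Pool.Agent.SB

theorem exists_limit {k : Type} [Field k] [NumberField k] {Ω : Type} [Field Ω] [Algebra k Ω]
    [IsAlgClosed Ω] (K : IntermediateField k Ω) [Algebra.IsAlgebraic K Ω]
    (D : Subgroup (kbar k Ω ≃ₐ[k] kbar k Ω))
    (hD : ∀ (Q : Type) [Group Q] [Finite Q], {f : D →* Q | IsOpen (f.ker : Set D)}.Finite)
    {I : Type} (U : Ultrafilter I) (E : I → IntermediateField K Ω) (hE : ∀ i, Normal K (E i))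
    (hU : ∀ θ : Ω, ∀ᶠ i in (U : Filter I), θ ∈ E i) (s : ∀ i, D →* (E i ≃ₐ[K] E i))
    (hs : ∀ i, KSec k K D (E i) (s i)) :
    ∃ S : D →* (Ω ≃ₐ[K] Ω), FSec k K D S ∧
      ∀ M : IntermediateField K Ω, FiniteDimensional K M →
        ∀ᶠ i in (U : Filter I), ∀ (γ : D) (θ : E i), (θ : Ω) ∈ M →
          S γ (θ : Ω) = ((s i γ θ : E i) : Ω) := by
  classical
  have hNB : (U : Filter I).NeBot := U.neBot
  have key : ∀ θ : Ω, ∃ f : D → Ω, ∀ᶠ i in (U : Filter I), ∃ h : θ ∈ E i, ∀ γ : D,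
      ((s i γ ⟨θ, h⟩ : E i) : Ω) = f γ := by
    intro θ
    have hfd : FiniteDimensional K (IntermediateField.adjoin K ({θ} : Set Ω)) :=
      IntermediateField.adjoin.finiteDimensional (Algebra.IsIntegral.isIntegral θ)
    obtain ⟨F, hF⟩ := Pool.Agent.Helper98.SGA.limit_key K D hD U E hU s hs
      (IntermediateField.adjoin K ({θ} : Set Ω))
    refine ⟨fun γ => F γ θ, ?_⟩
    filter_upwards [hF, hU θ] with i hi hθ
    exact ⟨hθ, fun γ => hi γ ⟨θ, hθ⟩ (IntermediateField.mem_adjoin_simple_self K θ)⟩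
  choose f hf using key
  have hadd : ∀ (γ : D) (x y : Ω), f (x + y) γ = f x γ + f y γ := by
    intro γ x y
    obtain ⟨i, ⟨h1, e1⟩, ⟨h2, e2⟩, ⟨h3, e3⟩⟩ := ((hf x).and ((hf y).and (hf (x + y)))).exists
    rw [← e1, ← e2, ← e3, ← IntermediateField.coe_add, ← map_add]
    rfl
  have hmul : ∀ (γ : D) (x y : Ω), f (x * y) γ = f x γ * f y γ := by
    intro γ x y
    obtain ⟨i, ⟨h1, e1⟩, ⟨h2, e2⟩, ⟨h3, e3⟩⟩ := ((hf x).and ((hf y).and (hf (x * y)))).exists
    rw [← e1, ← e2, ← e3, ← IntermediateField.coe_mul, ← map_mul]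
    rfl
  have halg : ∀ (γ : D) (r : K), f (algebraMap K Ω r) γ = algebraMap K Ω r := by
    intro γ r
    obtain ⟨i, h1, e1⟩ := (hf (algebraMap K Ω r)).exists
    rw [← e1]
    exact congrArg Subtype.val ((s i γ).commutes r)
  have hone : ∀ x : Ω, f x 1 = x := by
    intro x
    obtain ⟨i, h1, e1⟩ := (hf x).exists
    rw [← e1, map_one]
    rfl
  have hcomp : ∀ (γ δ : D) (x : Ω), f x (γ * δ) = f (f x δ) γ := by
    intro γ δ x
    obtain ⟨i, ⟨h1, e1⟩, ⟨h2, e2⟩⟩ := ((hf x).and (hf (f x δ))).exists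
    rw [← e1, ← e2, map_mul]
    have h3 : (⟨f x δ, h2⟩ : E i) = s i δ ⟨x, h1⟩ := Subtype.ext (e1 δ).symm
    rw [h3]
    rfl
  let Φ : D → (Ω →ₐ[K] Ω) := fun γ =>
    { toFun := fun x => f x γ
      map_one' := by have := halg γ 1; rwa [map_one] at this
      map_mul' := hmul γ
      map_zero' := by have := halg γ 0; rwa [map_zero] at this
      map_add' := hadd γ
      commutes' := halg γ }
  have hΦ : ∀ (γ : D) (x : Ω), Φ γ x = f x γ := fun _ _ => rfl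
  let Ψ : D → (Ω ≃ₐ[K] Ω) := fun γ => AlgEquiv.ofAlgHom (Φ γ) (Φ γ⁻¹)
    (AlgHom.ext fun x => by
      change f (f x γ⁻¹) γ = x
      rw [← hcomp, mul_inv_cancel, hone])
    (AlgHom.ext fun x => by
      change f (f x γ) γ⁻¹ = x
      rw [← hcomp, inv_mul_cancel, hone])
  let S : D →* (Ω ≃ₐ[K] Ω) :=
    { toFun := Ψ
      map_one' := AlgEquiv.ext fun x => hone x
      map_mul' := fun γ δ => AlgEquiv.ext fun x => hcomp γ δ x }
  have hS : ∀ (γ : D) (x : Ω), S γ x = f x γ := fun _ _ => rfl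
  refine ⟨S, ⟨?_, ?_⟩, ?_⟩
  · intro θ
    obtain ⟨i, h1, e1⟩ := (hf θ).exists
    have h2 : {γ : D | S γ θ = θ} = {γ : D | s i γ ⟨θ, h1⟩ = ⟨θ, h1⟩} := by
      ext γ
      rw [Set.mem_setOf_eq, Set.mem_setOf_eq, hS, ← e1 γ]
      exact ⟨fun h => Subtype.ext h, fun h => congrArg Subtype.val h⟩
    rw [h2]
    exact (hs i).cont ⟨θ, h1⟩
  · intro γ θ
    obtain ⟨i, h1, e1⟩ := (hf (θ : Ω)).exists
    rw [hS, ← e1 γ]
    exact (hs i).ind γ θ h1
  · intro M hM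
    obtain ⟨F, hF⟩ := Pool.Agent.Helper98.SGA.limit_key K D hD U E hU s hs M
    filter_upwards [hF] with i hi γ θ hθ
    obtain ⟨j, ⟨h1, e1⟩, h2⟩ := ((hf (θ : Ω)).and hF).exists
    rw [hi γ θ hθ, hS, ← e1 γ]
    exact h2 γ ⟨(θ : Ω), h1⟩ hθ

end Pool.Agent.SB
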